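import Pool.Agent.helper90.FL.Spec

/-! Row SCB of project FL (MP_fe76a7_co), statement by helper90. -/

set_option autoImplicit false

namespace Pool.Agent.helper90.FL

open Finset Polynomial
open scoped Classical

theorem SCB_clmono {V E : Type} {s t : E → V} {B B' : Finset E} {S : Set V} (h : B ⊆ B')
    (hS : Cl s t B' S) : Cl s t B S := fun x hx => hS x (h hx)

theorem SCB_lpmono {V E : Type} {s t : E → V} {B B' : Finset E} {e : E} (h : B ⊆ B')
    (hl : Lp s t B e) : Lp s t B' e := fun S hS => hl S (SCB_clmono h hS)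

theorem SCB : SCB_stmt := by
  intro V E s t B C Y e hC heC h2 heY hCY hY
  obtain ⟨_, hlp, _⟩ := hC
  have h3 : Ind s t (B ∪ (Y \ C)) (C.erase e) := by
    intro c hc hl
    have hcC : c ∈ C := mem_of_mem_erase hc
    refine hY c (hCY hc) (SCB_lpmono ?_ hl)
    intro x hx
    rw [mem_union, mem_union, mem_sdiff, mem_erase, mem_erase] at hx
    rw [mem_union, mem_erase]
    rcases hx with (hx | ⟨hx1, hx2⟩) | ⟨hx1, hx2, hx3⟩
    · exact Or.inl hx
    · exact Or.inr ⟨fun h => hx2 (h ▸ hcC), hx1⟩
    · exact Or.inr ⟨hx1, hCY (mem_erase.2 ⟨hx2, hx3⟩)⟩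
  refine ⟨?_, ?_, h3⟩
  · intro c hc hl
    by_cases hce : c = e
    · subst hce
      have hne : (C.erase c).Nonempty := by
        rw [← card_pos, card_erase_of_mem hc]
        omega
      obtain ⟨c', hc'⟩ := hne
      have hc'C : c' ∈ C := mem_of_mem_erase hc'
      refine hY c' (hCY hc') ?_
      intro S hS
      have hD : Cl s t (B ∪ (Y \ C)) S := by
        refine SCB_clmono ?_ hS
        intro x hx
        rw [mem_union, mem_sdiff] at hx
        rw [mem_union, mem_erase]
        rcases hx with hx | ⟨hx1, hx2⟩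
        · exact Or.inl hx
        · exact Or.inr ⟨fun h => hx2 (h ▸ hc'C), hx1⟩
      have hsc : s c ∈ S ↔ t c ∈ S := hl S hD
      refine hlp c' hc'C S ?_
      intro x hx
      rw [mem_union, mem_erase] at hx
      rcases hx with hx | ⟨hx1, hx2⟩
      · exact hS x (mem_union_left _ hx)
      · by_cases hxc : x = c
        · subst hxc
          exact hsc
        · exact hS x (mem_union_right _ (mem_erase.2 ⟨hx1, hCY (mem_erase.2 ⟨hxc, hx2⟩)⟩))
    · exact h3 c (mem_erase.2 ⟨hce, hc⟩) (SCB_lpmono subset_union_left hl)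
  · intro c hc
    refine SCB_lpmono ?_ (hlp c hc)
    exact union_subset_union_left subset_union_left

end Pool.Agent.helper90.FL
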